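import Pool.Agent.Y408.SG.Levels

/-!
# `2 ^ (2 ^< κ) ↛ (κ, 5)⁴` for every singular `κ` whose cofinality is not weakly compact

Here `2 ^< κ` is the weak power, the supremum of `2 ^ ρ` over `ρ < κ` (Mathlib: `Cardinal.powerlt`).
More generally `exp_(n+1) (2 ^< κ) ↛ (κ, n + 5)^(n+4)` for all `n`, where `exp_0 c = c` and
`exp_(n+1) c = 2 ^ exp_n c`.
-/

set_option autoImplicit false

open Cardinal Ordinal

namespace Pool.Agent.Results.MP_d0bad0_lc.AllSingular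

/-- The ordinary partition relation `κ → (l₀, l₁)^r` for cardinals: for every set `α` of
cardinality `κ` and every colouring `c` of the `r`-element subsets of `α` with the two colours
`false` and `true`, there is a subset of cardinality `l₀` all of whose `r`-element subsets have
colour `false`, or a subset of cardinality `l₁` all of whose `r`-element subsets have colour
`true`.  (Values of `c` at finite sets that do not have `r` elements play no role.) -/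
def Arrow (κ l₀ l₁ : Cardinal.{0}) (r : ℕ) : Prop :=
  ∀ (α : Type) (c : Finset α → Bool), #α = κ →
    (∃ H : Set α, #H = l₀ ∧ ∀ s : Finset α, (s : Set α) ⊆ H → s.card = r → c s = false) ∨
    (∃ H : Set α, #H = l₁ ∧ ∀ s : Finset α, (s : Set α) ⊆ H → s.card = r → c s = true)

/-- iterated exponentials: `expo c 0 = c`, `expo c (n + 1) = 2 ^ expo c n` -/
noncomputable def expo (c : Cardinal.{0}) : ℕ → Cardinal.{0}
  | 0 => c
  | n + 1 => 2 ^ expo c n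

theorem expo_eq (c : Cardinal.{0}) (n : ℕ) : expo c n = Pool.Agent.Y408.SG.tower c n := by
  induction n with
  | zero => rfl
  | succ n ih =>
    show (2 : Cardinal.{0}) ^ expo c n = 2 ^ Pool.Agent.Y408.SG.tower c n
    rw [ih]

/-- In ZFC, `2 ^ (2 ^< κ) ↛ (κ, 5)⁴`, and more generally `exp_(n+1) (2 ^< κ) ↛ (κ, n + 5)^(n+4)` for
all `n` (the case `n = 0` is the former relation), holds
* for every singular cardinal `κ` whose cofinality `μ` satisfies `μ ↛ (μ, μ)²`;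
* for every singular cardinal `κ` such that `cf κ ≤ 2 ^ θ` for some `θ < cf κ`;
* for every singular cardinal `κ` whose cofinality is an uncountable successor cardinal;
* for `κ = ℵ_ω₁`; the case `n = 0` is stated separately. -/
theorem result :
    (∀ κ : Cardinal.{0}, κ.IsSingular → ¬ Arrow κ.ord.cof κ.ord.cof κ.ord.cof 2 →
      ∀ n : ℕ, ¬ Arrow (expo (2 ^< κ) (n + 1)) κ ((n + 5 : ℕ) : Cardinal.{0}) (n + 4)) ∧
    (∀ κ : Cardinal.{0}, κ.IsSingular → (∃ θ, θ < κ.ord.cof ∧ κ.ord.cof ≤ 2 ^ θ) →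
      ∀ n : ℕ, ¬ Arrow (expo (2 ^< κ) (n + 1)) κ ((n + 5 : ℕ) : Cardinal.{0}) (n + 4)) ∧
    (∀ κ θ : Cardinal.{0}, κ.IsSingular → κ.ord.cof = Order.succ θ →
      ∀ n : ℕ, ¬ Arrow (expo (2 ^< κ) (n + 1)) κ ((n + 5 : ℕ) : Cardinal.{0}) (n + 4)) ∧
    (∀ n : ℕ, ¬ Arrow (expo (2 ^< ℵ_ (ω_ 1 : Ordinal.{0})) (n + 1)) (ℵ_ (ω_ 1 : Ordinal.{0}))
      ((n + 5 : ℕ) : Cardinal.{0}) (n + 4)) ∧
    ¬ Arrow (2 ^ (2 ^< ℵ_ (ω_ 1 : Ordinal.{0}))) (ℵ_ (ω_ 1 : Ordinal.{0})) 5 4 := by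
  have h1 : ∀ κ : Cardinal.{0}, κ.IsSingular → ¬ Arrow κ.ord.cof κ.ord.cof κ.ord.cof 2 →
      ∀ n : ℕ, ¬ Arrow (expo (2 ^< κ) (n + 1)) κ ((n + 5 : ℕ) : Cardinal.{0}) (n + 4) := by
    intro κ hκ hcf n
    rw [expo_eq]
    exact Pool.Agent.Y408.SG.neg_levels hκ hcf n
  have h2 : ∀ κ : Cardinal.{0}, κ.IsSingular → (∃ θ, θ < κ.ord.cof ∧ κ.ord.cof ≤ 2 ^ θ) →
      ∀ n : ℕ, ¬ Arrow (expo (2 ^< κ) (n + 1)) κ ((n + 5 : ℕ) : Cardinal.{0}) (n + 4) := by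
    rintro κ hκ ⟨θ, hθ, h⟩
    exact h1 κ hκ (Pool.Agent.Y408.SG.neg_pairs (Cardinal.isRegular_cof
      (Cardinal.isSuccLimit_ord hκ.aleph0_le)) hθ h)
  have h3 : ∀ κ θ : Cardinal.{0}, κ.IsSingular → κ.ord.cof = Order.succ θ →
      ∀ n : ℕ, ¬ Arrow (expo (2 ^< κ) (n + 1)) κ ((n + 5 : ℕ) : Cardinal.{0}) (n + 4) := by
    intro κ θ hκ hθ
    refine h2 κ hκ ⟨θ, ?_, ?_⟩
    · rw [hθ]; exact Order.lt_succ θ
    · rw [hθ]; exact Order.succ_le_of_lt (Cardinal.cantor θ)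
  have hcof : (ℵ_ (ω_ 1 : Ordinal.{0})).ord.cof = Order.succ ℵ₀ := by
    rw [Cardinal.ord_aleph, Ordinal.cof_omega (isSuccLimit_omega 1),
      Cardinal.cof_omega_one, Cardinal.succ_aleph0]
  have hsing : (ℵ_ (ω_ 1 : Ordinal.{0})).IsSingular := by
    rw [Cardinal.isSingular_aleph_iff]
    refine ⟨isSuccLimit_omega 1, ?_⟩
    rw [Cardinal.cof_omega_one]
    rw [Cardinal.aleph_lt_aleph]
    exact Ordinal.one_lt_omega0.trans_le (Ordinal.omega0_le_omega 1)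
  have h4 := h3 _ _ hsing hcof
  refine ⟨h1, h2, h3, h4, ?_⟩
  have h5 := h4 0
  have e1 : expo (2 ^< ℵ_ (ω_ 1 : Ordinal.{0})) (0 + 1) = 2 ^ (2 ^< ℵ_ (ω_ 1 : Ordinal.{0})) := rfl
  rw [e1] at h5
  exact_mod_cast h5

end Pool.Agent.Results.MP_d0bad0_lc.AllSingular
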